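import Pool.Agent.K4H59.TL.Spec

open Set

namespace Pool.Agent.K4H59.TL

variable {K : Set ℂ} {O : ℂ} {H : Finset (ℂ →L[ℝ] ℝ)} {f₀ h h' : ℂ →L[ℝ] ℝ} {j j' : ℕ}

/-- the cone of `h` -/
def cn74 (H : Finset (ℂ →L[ℝ] ℝ)) (f₀ h : ℂ →L[ℝ] ℝ) : Set ℂ := {y : ℂ | f₀ y ≤ 0 ∧ ∀ h' ∈ H, h' y ≤ h y}

lemma cn74_closed (H : Finset (ℂ →L[ℝ] ℝ)) (f₀ h : ℂ →L[ℝ] ℝ) : IsClosed (cn74 H f₀ h) := by
  have : cn74 H f₀ h = {y | f₀ y ≤ 0} ∩ ⋂ h' ∈ H, {y | h' y ≤ h y} := by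
    ext y
    simp [cn74]
  rw [this]
  refine (isClosed_le f₀.continuous continuous_const).inter ?_
  exact isClosed_biInter fun h' _ => isClosed_le h'.continuous h.continuous

lemma union74 (H : Finset (ℂ →L[ℝ] ℝ)) (f₀ : ℂ →L[ℝ] ℝ) (S : Finset (ℂ →L[ℝ] ℝ))
    (hS : ∀ h ∈ S, interior (cn74 H f₀ h) = ∅) :
    IsClosed (⋃ h ∈ S, cn74 H f₀ h) ∧ interior (⋃ h ∈ S, cn74 H f₀ h) = ∅ := by
  classical
  induction S using Finset.induction_on with
  | empty => simp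
  | insert a S ha ih =>
    obtain ⟨h1, h2⟩ := ih fun h hh => hS h (Finset.mem_insert_of_mem hh)
    rw [Finset.set_biUnion_insert]
    refine ⟨(cn74_closed H f₀ a).union h1, ?_⟩
    rw [interior_union_isClosed_of_interior_empty (cn74_closed H f₀ a) h2]
    exact hS a (Finset.mem_insert_self _ _)

theorem pc_cover (hR : Rep K O H) (hf : f₀ ≠ 0) {x : ℂ} (hx : x ∈ K) (h0 : f₀ (x - O) ≤ 0) (hne : x ≠ O) :
    ∃ h j, Act H f₀ h ∧ x ∈ pc H f₀ O h j := by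
  classical
  set y := x - O with hy
  have hy0 : y ≠ 0 := sub_ne_zero.2 hne
  -- the half-plane
  obtain ⟨w, hw⟩ : ∃ w, f₀ w < 0 := by
    by_contra hc
    push_neg at hc
    refine hf (ContinuousLinearMap.ext fun z => ?_)
    have h1 := hc z
    have h2 := hc (-z)
    rw [map_neg] at h2
    rw [ContinuousLinearMap.zero_apply]
    linarith
  set U : Set ℂ := {z | f₀ z < 0} with hU
  have hUo : IsOpen U := isOpen_lt f₀.continuous continuous_const
  have hyU : y ∈ closure U := by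
    have hc : Continuous fun t : ℝ => y + t • w := by fun_prop
    have h0' : (0 : ℝ) ∈ closure (Ioi (0 : ℝ)) := by simp
    have := map_mem_closure hc h0' (t := U) (fun t ht => by
      show f₀ (y + t • w) < 0
      rw [map_add, map_smul, smul_eq_mul]
      have ht' : 0 < t := ht
      have := mul_neg_of_pos_of_neg ht' hw
      linarith)
    simpa using this
  -- the cones
  set N := H.filter fun h => interior (cn74 H f₀ h) = ∅
  set P := H.filter fun h => interior (cn74 H f₀ h) ≠ ∅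
  obtain ⟨-, hN⟩ := union74 H f₀ N fun h hh => (Finset.mem_filter.1 hh).2
  have hdense : Dense (⋃ h ∈ N, cn74 H f₀ h)ᶜ := interior_eq_empty_iff_dense_compl.1 hN
  have hPc : IsClosed (⋃ h ∈ P, cn74 H f₀ h) :=
    Set.Finite.isClosed_biUnion P.finite_toSet fun h _ => cn74_closed H f₀ h
  have hsub : U ∩ (⋃ h ∈ N, cn74 H f₀ h)ᶜ ⊆ ⋃ h ∈ P, cn74 H f₀ h := by
    rintro z ⟨hz1, hz2⟩
    have hz0 : z ≠ 0 := by
      rintro rfl
      have : f₀ 0 < 0 := hz1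
      simp at this
    obtain ⟨h1, hh1, -⟩ := hR.pos z hz0
    obtain ⟨m, hm, hmax⟩ := H.exists_max_image (fun h => h z) ⟨h1, hh1⟩
    have hzm : z ∈ cn74 H f₀ m := ⟨le_of_lt hz1, hmax⟩
    simp only [mem_compl_iff, mem_iUnion, not_exists] at hz2
    simp only [mem_iUnion]
    refine ⟨m, Finset.mem_filter.2 ⟨hm, fun he => ?_⟩, hzm⟩
    exact hz2 m (Finset.mem_filter.2 ⟨hm, he⟩) hzm
  have hyP : y ∈ ⋃ h ∈ P, cn74 H f₀ h := by
    have h1 : closure U ⊆ ⋃ h ∈ P, cn74 H f₀ h := by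
      refine closure_minimal ?_ hPc
      refine (hdense.open_subset_closure_inter hUo).trans ?_
      exact closure_minimal hsub hPc
    exact h1 hyU
  simp only [mem_iUnion] at hyP
  obtain ⟨m, hm, hym⟩ := hyP
  obtain ⟨hmH, hmint⟩ := Finset.mem_filter.1 hm
  have hact : Act H f₀ m := ⟨hmH, nonempty_iff_ne_empty.2 hmint⟩
  obtain ⟨h1, hh1, hpos⟩ := hR.pos y hy0
  have hmpos : 0 < m y := lt_of_lt_of_le hpos (hym.2 h1 hh1)
  have hm1 : m y ≤ 1 := by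
    rw [hR.eq] at hx
    exact hx m hmH
  obtain ⟨n, hn1, hn2⟩ := exists_nat_pow_near_of_lt_one hmpos hm1 (show (0 : ℝ) < 1 / 2 by norm_num)
    (by norm_num)
  exact ⟨m, n, hact, h0, hym.2, hn1.le, hn2⟩

end Pool.Agent.K4H59.TL
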