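import Pool.Agent.K4H72.Til.Spec

open Set

namespace Pool.Agent.K4H74.TilT9

open Pool.Agent.K4H72.Til

lemma E_re (v : ℤ × ℤ) : (E v).re = (v.1 : ℝ) + v.2 / 2 := by
  unfold E ζ
  simp [Complex.add_re, Complex.mul_re]
  ring

lemma E_im (v : ℤ × ℤ) : (E v).im = (v.2 : ℝ) * (Real.sqrt 3 / 2) := by
  unfold E ζ
  simp [Complex.add_im, Complex.mul_im]

lemma norm_E_sq' (v : ℤ × ℤ) : ‖E v‖ ^ 2 = (v.1 : ℝ) ^ 2 + v.1 * v.2 + (v.2 : ℝ) ^ 2 := by
  rw [← Complex.normSq_eq_norm_sq, Complex.normSq_apply, E_re, E_im]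
  have h := Real.mul_self_sqrt (show (0 : ℝ) ≤ 3 by norm_num)
  have : (v.2 : ℝ) * (Real.sqrt 3 / 2) * (v.2 * (Real.sqrt 3 / 2)) =
      (v.2 : ℝ) ^ 2 * (Real.sqrt 3 * Real.sqrt 3) / 4 := by ring
  rw [this, h]
  ring

lemma one_le_E (v : ℤ × ℤ) (hv : v ≠ 0) : 1 ≤ ‖E v‖ := by
  have h1 : (1 : ℝ) ≤ ‖E v‖ ^ 2 := by
    rw [norm_E_sq']
    have : (1 : ℤ) ≤ v.1 ^ 2 + v.1 * v.2 + v.2 ^ 2 := by
      by_contra hc
      have h0 : v.1 ^ 2 + v.1 * v.2 + v.2 ^ 2 ≤ 0 := by linarith [Int.lt_iff_add_one_le.1 (not_le.1 hc)]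
      have h2 : (2 * v.1 + v.2) ^ 2 + 3 * v.2 ^ 2 ≤ 0 := by nlinarith
      have h3 : v.2 = 0 := by nlinarith [sq_nonneg (2 * v.1 + v.2), sq_nonneg v.2]
      have h4 : v.1 = 0 := by
        rw [h3] at h0
        nlinarith [sq_nonneg v.1]
      exact hv (Prod.ext h4 h3)
    exact_mod_cast this
  nlinarith [norm_nonneg (E v)]

lemma g_dist (h : ℝ) (g : ℤ × ℤ → ℂ) (hg : Def1 h g) (v w : ℤ × ℤ) (hvw : v ≠ w) :
    19 / 20 * h ≤ ‖g v - g w‖ := by
  have h1 := hg.2 v w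
  have h0 := hg.1
  have h2 := one_le_E (v - w) (sub_ne_zero.2 hvw)
  have h3 : ‖(h : ℂ) * E (v - w)‖ = h * ‖E (v - w)‖ := by
    rw [norm_mul, Complex.norm_real, Real.norm_of_nonneg h0.le]
  have h4 : ‖(h : ℂ) * E (v - w)‖ ≤ ‖g v - g w‖ + ‖g v - g w - (h : ℂ) * E (v - w)‖ := by
    have := norm_sub_le (g v - g w) (g v - g w - (h : ℂ) * E (v - w))
    rwa [sub_sub_cancel] at this
  rw [h3] at h4
  nlinarith [mul_le_mul_of_nonneg_left h2 h0.le]

lemma g_ne (h : ℝ) (g : ℤ × ℤ → ℂ) (hg : Def1 h g) (v w : ℤ × ℤ) (hvw : v ≠ w) : g v ≠ g w := by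
  intro he
  have := g_dist h g hg v w hvw
  rw [he, sub_self, norm_zero] at this
  linarith [hg.1]

/-- half-plane -/
lemma half (a b z : ℂ) : ‖z - a‖ ≤ ‖z - b‖ ↔
    (2 : ℝ) * inner ℝ (b - a) z ≤ ‖b‖ ^ 2 - ‖a‖ ^ 2 := by
  rw [← sq_le_sq₀ (norm_nonneg _) (norm_nonneg _), norm_sub_sq_real, norm_sub_sq_real,
    inner_sub_left, real_inner_comm z a, real_inner_comm z b]
  constructor <;> intro h <;> linarith

lemma cell_convex (g : ℤ × ℤ → ℂ) (v : ℤ × ℤ) : Convex ℝ (cell g v) := by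
  have : cell g v = ⋂ w, {z : ℂ | (inner ℝ ((2 : ℝ) • (g w - g v)) z : ℝ) ≤ ‖g w‖ ^ 2 - ‖g v‖ ^ 2} := by
    ext z
    simp only [cell, mem_ofPred_eq, mem_iInter]
    refine forall_congr' fun w => ?_
    rw [half, inner_smul_left]
    simp
  rw [this]
  refine convex_iInter fun w => ?_
  exact convex_halfSpace_le (IsLinearMap.mk (fun x y => inner_add_right _ _ _)
    (fun c x => by rw [inner_smul_right]; simp)) _

lemma ball_sub (h : ℝ) (g : ℤ × ℤ → ℂ) (hg : Def1 h g) (v : ℤ × ℤ) :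
    Metric.ball (g v) (h / 4) ⊆ cell g v := by
  intro z hz w
  rw [Metric.mem_ball, dist_eq_norm] at hz
  rcases eq_or_ne v w with rfl | hvw
  · exact le_rfl
  · have h1 := g_dist h g hg v w hvw
    have h2 : ‖g v - g w‖ ≤ ‖z - g v‖ + ‖z - g w‖ := by
      have := norm_sub_le (z - g w) (z - g v)
      rw [sub_sub_sub_cancel_left] at this
      linarith
    have := hg.1
    linarith

lemma cell_closed (g : ℤ × ℤ → ℂ) (v : ℤ × ℤ) : IsClosed (cell g v) := by
  have : cell g v = ⋂ w, {z : ℂ | ‖z - g v‖ ≤ ‖z - g w‖} := by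
    ext z
    simp only [cell, mem_ofPred_eq, mem_iInter]
  rw [this]
  refine isClosed_iInter fun w => isClosed_le ?_ ?_
  · exact (continuous_id.sub continuous_const).norm
  · exact (continuous_id.sub continuous_const).norm

theorem polygon_of
    (radius : ∀ (h : ℝ) (g : ℤ × ℤ → ℂ), Def1 h g → ∀ (v : ℤ × ℤ) (z : ℂ),
      (∀ e ∈ six, ‖z - g v‖ ≤ ‖z - g (v + e)‖) → ‖z - g v‖ ≤ 7 / 10 * h)
    (cell_six : ∀ (h : ℝ) (g : ℤ × ℤ → ℂ), Def1 h g → ∀ (v : ℤ × ℤ),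
      cell g v = {z | ∀ e ∈ six, ‖z - g v‖ ≤ ‖z - g (v + e)‖})
    (h : ℝ) (g : ℤ × ℤ → ℂ) (hg : Def1 h g) (v : ℤ × ℤ) : IsPolygon (cell g v) := by
  have hball := ball_sub h g hg v
  have h0 := hg.1
  have hint : (interior (cell g v)).Nonempty :=
    ⟨g v, interior_maximal hball Metric.isOpen_ball (Metric.mem_ball_self (by linarith))⟩
  refine ⟨⟨g v, hball (Metric.mem_ball_self (by linarith))⟩, ?_, ?_, ?_⟩
  · refine Metric.isCompact_of_isClosed_isBounded (cell_closed g v) ?_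
    refine (Metric.isBounded_closedBall (x := g v) (r := 7 / 10 * h)).subset fun z hz => ?_
    rw [Metric.mem_closedBall, dist_eq_norm]
    exact radius h g hg v z fun e _ => hz (v + e)
  · rw [(cell_convex g v).closure_interior_eq_closure_of_nonempty_interior hint]
    exact subset_closure
  · classical
    refine ⟨six.image fun e => ((innerSL ℝ ((2 : ℝ) • (g (v + e) - g v)) : ℂ →L[ℝ] ℝ),
      ‖g (v + e)‖ ^ 2 - ‖g v‖ ^ 2), ?_, ?_⟩
    · intro p hp
      rw [Finset.mem_image] at hp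
      obtain ⟨e, he, rfl⟩ := hp
      intro hz
      have h1 : (innerSL ℝ ((2 : ℝ) • (g (v + e) - g v)) : ℂ →L[ℝ] ℝ) (g (v + e) - g v) = 0 := by
        have hz' : (innerSL ℝ ((2 : ℝ) • (g (v + e) - g v)) : ℂ →L[ℝ] ℝ) = 0 := hz
        rw [hz']
        rfl
      rw [innerSL_apply_apply, inner_smul_left, real_inner_self_eq_norm_sq] at h1
      have h2 : ‖g (v + e) - g v‖ ^ 2 ≠ 0 := by
        refine pow_ne_zero 2 (norm_ne_zero_iff.2 (sub_ne_zero.2 ?_))
        refine g_ne h g hg _ _ ?_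
        intro h3
        have h4 : e = 0 := by simpa using h3
        rw [h4] at he
        revert he
        decide
      simp at h1
      exact h2 (by rw [h1]; simp)
    · rw [cell_six h g hg v]
      ext z
      simp only [mem_ofPred_eq, Finset.forall_mem_image]
      refine forall_congr' fun e => ?_
      refine forall_congr' fun _ => ?_
      rw [half, innerSL_apply_apply, inner_smul_left]
      simp

theorem interior_disj (h : ℝ) (g : ℤ × ℤ → ℂ) (hg : Def1 h g) (v w : ℤ × ℤ) (hvw : v ≠ w) :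
    Disjoint (interior (cell g v)) (interior (cell g w)) := by
  rw [Set.disjoint_left]
  intro z hz1 hz2
  have hU : IsOpen (interior (cell g v) ∩ interior (cell g w)) := isOpen_interior.inter isOpen_interior
  have hne := g_ne h g hg v w hvw
  have heq : ∀ y ∈ interior (cell g v) ∩ interior (cell g w),
      (2 : ℝ) * inner ℝ (g w - g v) y = ‖g w‖ ^ 2 - ‖g v‖ ^ 2 := by
    rintro y ⟨h1, h2⟩
    have h3 := (half (g v) (g w) y).1 (interior_subset h1 w)
    have h4 := (half (g w) (g v) y).1 (interior_subset h2 v)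
    rw [← neg_sub (g w) (g v), inner_neg_left] at h4
    linarith
  obtain ⟨ε, hε, hsub⟩ := Metric.isOpen_iff.1 hU z ⟨hz1, hz2⟩
  have hd : 0 < ‖g w - g v‖ := norm_pos_iff.2 (sub_ne_zero.2 (Ne.symm hne))
  have hmem : z + ((ε / (2 * ‖g w - g v‖) : ℝ) : ℂ) * (g w - g v) ∈ Metric.ball z ε := by
    rw [Metric.mem_ball, dist_eq_norm, add_sub_cancel_left, norm_mul, Complex.norm_real,
      Real.norm_of_nonneg (by positivity)]
    rw [div_mul_eq_mul_div, mul_comm 2, ← div_div, mul_div_assoc, mul_div_assoc]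
    rw [div_self hd.ne']
    linarith
  have e1 := heq z ⟨hz1, hz2⟩
  have e2 := heq _ (hsub hmem)
  rw [inner_add_right, ← Complex.real_smul, inner_smul_right, real_inner_self_eq_norm_sq] at e2
  have h5 : 0 < ε / (2 * ‖g w - g v‖) * ‖g w - g v‖ ^ 2 := by positivity
  linarith

end Pool.Agent.K4H74.TilT9
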