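import Pool.Agent.K4H74.TilT9

open Set

namespace Pool.Agent.K4H74.TilT6

open Pool.Agent.K4H72.Til Pool.Agent.K4H74.TilT9

lemma six_norm (e : ℤ × ℤ) (he : e ∈ six) : ‖E e‖ = 1 := by
  have h1 : ‖E e‖ ^ 2 = 1 := by
    rw [norm_E_sq']
    have : e.1 ^ 2 + e.1 * e.2 + e.2 ^ 2 = (1 : ℤ) := by
      revert e
      decide
    exact_mod_cast this
  nlinarith [norm_nonneg (E e)]

lemma hex (s t A : ℝ) (h1 : s ≤ A) (h2 : -s ≤ A) (h3 : t ≤ A) (h4 : -t ≤ A) (h5 : s - t ≤ A)
    (h6 : t - s ≤ A) : s ^ 2 - s * t + t ^ 2 ≤ A ^ 2 := by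
  have hA : 0 ≤ A := by linarith
  rcases le_total 0 s with hs | hs <;> rcases le_total 0 t with ht | ht
  · rcases le_total t s with h | h
    · nlinarith [mul_nonneg ht (sub_nonneg.2 h)]
    · nlinarith [mul_nonneg hs (sub_nonneg.2 h)]
  · nlinarith [mul_nonneg hs (neg_nonneg.2 ht)]
  · nlinarith [mul_nonneg ht (neg_nonneg.2 hs)]
  · rcases le_total t s with h | h
    · nlinarith [mul_nonneg (neg_nonneg.2 hs) (sub_nonneg.2 h)]
    · nlinarith [mul_nonneg (neg_nonneg.2 ht) (sub_nonneg.2 h)]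

theorem radius (h : ℝ) (g : ℤ × ℤ → ℂ) (hg : Def1 h g) (v : ℤ × ℤ) (z : ℂ)
    (hz : ∀ e ∈ six, ‖z - g v‖ ≤ ‖z - g (v + e)‖) : ‖z - g v‖ ≤ 7 / 10 * h := by
  have h0 := hg.1
  set r := ‖z - g v‖ with hr
  have hr0 : 0 ≤ r := norm_nonneg _
  have key : ∀ e ∈ six, 2 * ((E e).re * (z - g v).re + (E e).im * (z - g v).im) ≤
      441 / 400 * h + r / 10 := by
    intro e he
    have h1 := hz e he
    have h2 : z - g (v + e) = (z - g v) - (g (v + e) - g v) := by ring
    rw [← sq_le_sq₀ (norm_nonneg _) (norm_nonneg _), h2, norm_sub_sq_real (z - g v)] at h1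
    have hδ := hg.2 (v + e) v
    rw [add_sub_cancel_left, six_norm e he, mul_one] at hδ
    set δ := g (v + e) - g v - (h : ℂ) * E e with hδdef
    have h3 : g (v + e) - g v = (h : ℂ) * E e + δ := by rw [hδdef]; ring
    have h4 : ‖g (v + e) - g v‖ ≤ 21 / 20 * h := by
      rw [h3]
      refine (norm_add_le _ _).trans ?_
      rw [norm_mul, Complex.norm_real, Real.norm_of_nonneg h0.le, six_norm e he]
      linarith
    have h5 : ‖g (v + e) - g v‖ ^ 2 ≤ (21 / 20 * h) ^ 2 :=
      pow_le_pow_left₀ (norm_nonneg _) h4 2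
    have h6 : 2 * inner ℝ (z - g v) (g (v + e) - g v) ≤ (21 / 20 * h) ^ 2 := by linarith
    rw [h3, inner_add_right] at h6
    have h7 : -(r * (1 / 20 * h)) ≤ inner ℝ (z - g v) δ := by
      have h8 := abs_real_inner_le_norm (z - g v) δ
      have h9 : ‖z - g v‖ * ‖δ‖ ≤ r * (1 / 20 * h) := mul_le_mul_of_nonneg_left hδ hr0
      have := neg_abs_le (inner ℝ (z - g v) δ)
      linarith
    have h8 : inner ℝ (z - g v) ((h : ℂ) * E e) =
        h * ((E e).re * (z - g v).re + (E e).im * (z - g v).im) := by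
      rw [← Complex.real_smul, inner_smul_right]
      congr 1
      rw [Complex.inner]
      simp [Complex.mul_re]
      ring
    rw [h8] at h6
    have h9 : h * (2 * ((E e).re * (z - g v).re + (E e).im * (z - g v).im)) ≤
        h * (441 / 400 * h + r / 10) := by nlinarith
    exact le_of_mul_le_mul_left h9 h0
  have k1 := key (1, 0) (by decide)
  have k2 := key (-1, 0) (by decide)
  have k3 := key (0, 1) (by decide)
  have k4 := key (0, -1) (by decide)
  have k5 := key (1, -1) (by decide)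
  have k6 := key (-1, 1) (by decide)
  simp only [E_re, E_im] at k1 k2 k3 k4 k5 k6
  set x := (z - g v).re
  set y := (z - g v).im
  push_cast at k1 k2 k3 k4 k5 k6
  have hh := hex (2 * x) (x + Real.sqrt 3 * y) (441 / 400 * h + r / 10) (by linarith) (by linarith)
    (by linarith) (by linarith) (by linarith) (by linarith)
  have h3 := Real.mul_self_sqrt (show (0 : ℝ) ≤ 3 by norm_num)
  have hr2 : r ^ 2 = x ^ 2 + y ^ 2 := by
    rw [hr, ← Complex.normSq_eq_norm_sq, Complex.normSq_apply]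
    ring
  have h4 : 3 * r ^ 2 ≤ (441 / 400 * h + r / 10) ^ 2 := by
    rw [hr2]
    nlinarith
  by_contra hc
  push_neg at hc
  nlinarith

end Pool.Agent.K4H74.TilT6
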